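import Pool.Agent.H79.TC.Main

/-!
# 3-colouring circle graphs is in P

A chord diagram with `n` chords is a word of length `2 * n` in which each of the labels
`0, ..., n - 1` occurs exactly twice (`IsChordDiagram`), two labels are adjacent in its circle graph
if they alternate (`circleGraph`), and `ThreeColCircle` is the set of the codes of the chord
diagrams whose circle graph is properly 3-colourable. It is decided in polynomial time.
-/

set_option autoImplicit false

namespace Pool.Agent.Results.MP_a0a67e_lc.ThreeColouringInP

open Pool.Agent.H79.TC Turing

/-- Some function `f`, computable in polynomial time by a Turing machine, decides whether a binary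
word is the code of a chord diagram whose circle graph is 3-colourable. -/
theorem result : ∃ f : List Bool → Bool,
    Nonempty (TM2ComputableInPolyTime (id : List Bool → List Bool) Computability.encodeBool f) ∧
    ∀ x : List Bool, f x = true ↔ x ∈ ThreeColCircle :=
  threeColCircle_in_P

end Pool.Agent.Results.MP_a0a67e_lc.ThreeColouringInP
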